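import Mathlib

set_option autoImplicit false

namespace Pool.Agent.Helper87.Sep

open Polynomial

/-- A rooted tree: a finite tree (a simple graph that is a tree) with one distinguished vertex,
the root. -/
structure FinRootedTree where
  /-- the vertex set -/
  V : Type
  /-- the vertex set is finite -/
  fintypeV : Fintype V
  /-- the underlying graph -/
  graph : SimpleGraph V
  /-- the underlying graph is a tree -/
  isTree : graph.IsTree
  /-- the root -/
  root : V

attribute [instance] FinRootedTree.fintypeV

/-- Isomorphism of rooted trees: a graph isomorphism mapping root to root. -/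
def Isomorphic (S T : FinRootedTree) : Prop :=
  ∃ e : S.graph ≃g T.graph, e S.root = T.root

open Classical in
/-- The children of a vertex `v`: the neighbours of `v` that are further from the root than `v`. -/
noncomputable def children (T : FinRootedTree) (v : T.V) : Finset T.V :=
  Finset.univ.filter fun w => T.graph.Adj v w ∧ T.graph.dist T.root w = T.graph.dist T.root v + 1

theorem dist_root_lt_card (T : FinRootedTree) (v : T.V) :
    T.graph.dist T.root v < Fintype.card T.V := by
  obtain ⟨p, hp, hl⟩ := T.isTree.connected.exists_path_of_dist T.root v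
  rw [← hl]
  exact hp.length_lt

theorem child_lt {T : FinRootedTree} {v w : T.V} (h : w ∈ children T v) :
    Fintype.card T.V - T.graph.dist T.root w < Fintype.card T.V - T.graph.dist T.root v := by
  have h1 : T.graph.dist T.root w = T.graph.dist T.root v + 1 := by
    simp only [children, Finset.mem_filter] at h
    exact h.2.2
  have h2 := dist_root_lt_card T v
  omega

open Classical in
/-- The polynomial `p` of the subtree hanging from the vertex `v` (rooted at `v`), whose branches
are the subtrees hanging from the children of `v`:
`p_•(x) = x` and `p_T(x) = x (1 - ∏ (1 - p_{T_i}(x)))`. -/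
noncomputable def pAt (T : FinRootedTree) (v : T.V) : ℤ[X] :=
  if children T v = ∅ then X
  else X * (1 - ∏ w ∈ (children T v).attach, (1 - pAt T w.1))
termination_by Fintype.card T.V - T.graph.dist T.root v
decreasing_by exact child_lt w.2

/-- The variable `x` of `ℤ[x,y,z]`. -/
noncomputable abbrev xVar : MvPolynomial (Fin 3) ℤ := MvPolynomial.X 0

/-- The variable `y` of `ℤ[x,y,z]`. -/
noncomputable abbrev yVar : MvPolynomial (Fin 3) ℤ := MvPolynomial.X 1

/-- The variable `z` of `ℤ[x,y,z]`. -/
noncomputable abbrev zVar : MvPolynomial (Fin 3) ℤ := MvPolynomial.X 2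

open Classical in
/-- The polynomial `A` of the subtree hanging from the vertex `v`:
`A_•(x,y) = y` and `A_T(x,y) = y + x ∏ A_{T_i}(x,y)`. -/
noncomputable def AAt (T : FinRootedTree) (v : T.V) : MvPolynomial (Fin 3) ℤ :=
  if children T v = ∅ then yVar
  else yVar + xVar * ∏ w ∈ (children T v).attach, AAt T w.1
termination_by Fintype.card T.V - T.graph.dist T.root v
decreasing_by exact child_lt w.2

open Classical in
/-- The polynomial `M` of the subtree hanging from the vertex `v`: `M_•(x,y,z) = 1` and
`M_T(x,y,z) = p_T(z)/z + x ∑_i M_{T_i}(x,y,z) ∏_{j ≠ i} A_{T_j}(x,y)`.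
Here `(pAt T v).divX` is `p_T(x)/x` (the constant coefficient of `p_T` is zero). -/
noncomputable def MAt (T : FinRootedTree) (v : T.V) : MvPolynomial (Fin 3) ℤ :=
  if children T v = ∅ then 1
  else aeval zVar (pAt T v).divX
    + xVar * ∑ w ∈ (children T v).attach, MAt T w.1 * ∏ w' ∈ (children T v).erase w.1, AAt T w'
termination_by Fintype.card T.V - T.graph.dist T.root v
decreasing_by exact child_lt w.2

/-- The polynomial `M_T(x,y,z)` of a rooted tree `T`. -/
noncomputable def M (T : FinRootedTree) : MvPolynomial (Fin 3) ℤ := MAt T T.root

/-- The definite integral `∫_0^1 f du` of a polynomial `f` in the variable `u` with coefficients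
in `ℚ[x]`: the term `a u^k` contributes `a / (k+1)`. -/
noncomputable def integralZeroOne (f : ℚ[X][X]) : ℚ[X] :=
  f.sum fun k a => C (1 / ((k : ℚ) + 1)) * a

/-- `G_T(x) = ∫_0^1 M_T(x u, 1 - u, u) du ∈ ℚ[x]`. In `ℚ[X][X]` the outer variable is `u` and
`C X` is `x`. -/
noncomputable def G (T : FinRootedTree) : ℚ[X] :=
  integralZeroOne (MvPolynomial.aeval ![C X * X, 1 - X, X] (M T))

end Pool.Agent.Helper87.Sep
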