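import Pool.Agent.Helper87.Sep.Defs

set_option autoImplicit false

namespace Pool.Agent.Helper87.Sep

open Polynomial

/-! ### Checks on the definitions -/

theorem pAt_coeff_zero (T : FinRootedTree) (v : T.V) : (pAt T v).coeff 0 = 0 := by
  rw [pAt]
  split_ifs <;> simp

/-- `p_T(x)` is divisible by `x` and `(pAt T v).divX` is the quotient. -/
theorem pAt_eq_X_mul_divX (T : FinRootedTree) (v : T.V) : pAt T v = X * (pAt T v).divX := by
  conv_lhs => rw [← X_mul_divX_add (pAt T v), pAt_coeff_zero]
  simp

/-- The formal integral is the integral: evaluating at real `x`. -/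
theorem aeval_integralZeroOne (f : ℚ[X][X]) (x : ℝ) :
    aeval x (integralZeroOne f) =
      ∫ u in (0 : ℝ)..1, f.eval₂ (aeval x : ℚ[X] →ₐ[ℚ] ℝ).toRingHom u := by
  have hadd : ∀ f g : ℚ[X][X], integralZeroOne (f + g) = integralZeroOne f + integralZeroOne g := by
    intro f g
    unfold integralZeroOne
    rw [Polynomial.sum_add_index] <;> intros <;> simp [mul_add]
  induction f using Polynomial.induction_on' with
  | add p q hp hq =>
    rw [hadd, map_add, hp, hq, ← intervalIntegral.integral_add]
    · simp only [eval₂_add]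
    · apply Continuous.intervalIntegrable
      simp only [eval₂_eq_sum_range]
      fun_prop
    · apply Continuous.intervalIntegrable
      simp only [eval₂_eq_sum_range]
      fun_prop
  | monomial n a =>
    have : integralZeroOne (monomial n a) = C (1 / ((n : ℚ) + 1)) * a := by
      unfold integralZeroOne
      rw [Polynomial.sum_monomial_index]
      simp
    rw [this]
    simp only [eval₂_monomial, intervalIntegral.integral_const_mul, integral_pow]
    simp
    ring

/-- For every real `x`, the value of `G_T` at `x` is `∫_0^1 M_T(x u, 1 - u, u) du`. -/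
theorem aeval_G (T : FinRootedTree) (x : ℝ) :
    aeval x (G T) = ∫ u in (0 : ℝ)..1, MvPolynomial.aeval ![x * u, 1 - u, u] (M T) := by
  unfold G
  rw [aeval_integralZeroOne]
  congr 1
  funext u
  have h := MvPolynomial.aeval_algebraMap_apply (R := ℤ) (A := ℝ) (B := ℝ) ![x * u, 1 - u, u] (M T)
  have : (Polynomial.eval₂RingHom (aeval x : ℚ[X] →ₐ[ℚ] ℝ).toRingHom u).comp
      (MvPolynomial.aeval (R := ℤ) ![(C X * X : ℚ[X][X]), 1 - X, X]).toRingHom =
      (MvPolynomial.aeval (R := ℤ) ![x * u, 1 - u, u]).toRingHom := by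
    apply MvPolynomial.ringHom_ext
    · intro r
      simp
    · intro i
      fin_cases i <;> simp
  exact congrArg (fun φ => φ (M T)) this

theorem mem_children {T : FinRootedTree} {v w : T.V} :
    w ∈ children T v ↔ T.graph.Adj v w ∧ T.graph.dist T.root w = T.graph.dist T.root v + 1 := by
  simp [children]

/-! ### Rooted trees given by a parent function -/

section Build

variable {V : Type} [Fintype V] [DecidableEq V] (r : V) (par : V → V) (d : V → ℕ)

/-- The graph in which every `v ≠ r` is joined to `par v`. -/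
def parGraph : SimpleGraph V := SimpleGraph.fromRel fun u v => u ≠ r ∧ par u = v

variable (hd0 : d r = 0) (hd : ∀ v, v ≠ r → d v = d (par v) + 1)

include hd

omit [Fintype V] [DecidableEq V] in
theorem parGraph_adj_par {v : V} (hv : v ≠ r) : (parGraph r par).Adj (par v) v := by
  rw [parGraph, SimpleGraph.fromRel_adj]
  refine ⟨?_, Or.inr ⟨hv, rfl⟩⟩
  intro h
  have := hd v hv
  rw [h] at this
  omega

include hd0

omit [Fintype V] [DecidableEq V] in
theorem exists_walk (n : ℕ) : ∀ v : V, d v = n → ∃ p : (parGraph r par).Walk r v, p.length = n := by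
  induction n with
  | zero =>
    intro v hv
    have : v = r := by
      by_contra h
      have := hd v h
      omega
    subst this
    exact ⟨SimpleGraph.Walk.nil, rfl⟩
  | succ n ih =>
    intro v hv
    have hne : v ≠ r := by
      intro h
      rw [h, hd0] at hv
      omega
    obtain ⟨p, hp⟩ := ih (par v) (by have := hd v hne; omega)
    refine ⟨p.concat (parGraph_adj_par r par d hd hne), ?_⟩
    rw [SimpleGraph.Walk.length_concat, hp]

omit [Fintype V] [DecidableEq V] hd0 in
theorem walk_bound {u v : V} (p : (parGraph r par).Walk u v) : d v ≤ d u + p.length := by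
  induction p with
  | nil => simp
  | cons h p ih =>
    rename_i a b c
    rw [SimpleGraph.Walk.length_cons]
    have : d b ≤ d a + 1 := by
      rw [parGraph, SimpleGraph.fromRel_adj] at h
      obtain ⟨-, ⟨h1, h2⟩ | ⟨h1, h2⟩⟩ := h
      · have := hd a h1
        rw [h2] at this
        omega
      · have := hd b h1
        rw [h2] at this
        omega
    omega

omit [Fintype V] [DecidableEq V] in
theorem parGraph_dist (v : V) : (parGraph r par).dist r v = d v := by
  obtain ⟨p, hp⟩ := exists_walk r par d hd0 hd (d v) v rfl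
  apply le_antisymm
  · rw [← hp]
    exact SimpleGraph.dist_le p
  · obtain ⟨q, hq⟩ := (SimpleGraph.Walk.reachable p).exists_walk_length_eq_dist
    have := walk_bound r par d hd q
    omega

omit [Fintype V] [DecidableEq V] in
theorem parGraph_connected : (parGraph r par).Connected := by
  have : Nonempty V := ⟨r⟩
  refine ⟨fun u v => ?_⟩
  obtain ⟨p, -⟩ := exists_walk r par d hd0 hd (d u) u rfl
  obtain ⟨q, -⟩ := exists_walk r par d hd0 hd (d v) v rfl
  exact p.reachable.symm.trans q.reachable

theorem parGraph_isTree : (parGraph r par).IsTree := by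
  classical
  have hc := parGraph_connected r par d hd0 hd
  rw [SimpleGraph.isTree_iff_connected_and_card]
  refine ⟨hc, ?_⟩
  apply le_antisymm _ hc.card_vert_le_card_edgeSet_add_one
  have hsub : (parGraph r par).edgeFinset ⊆ (Finset.univ.erase r).image fun v => s(v, par v) := by
    intro e he
    induction e using Sym2.ind with
    | _ a b =>
      rw [SimpleGraph.mem_edgeFinset, SimpleGraph.mem_edgeSet, parGraph,
        SimpleGraph.fromRel_adj] at he
      rw [Finset.mem_image]
      obtain ⟨-, ⟨h1, h2⟩ | ⟨h1, h2⟩⟩ := he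
      · exact ⟨a, by simp [h1], by rw [h2]⟩
      · exact ⟨b, by simp [h1], by rw [h2, Sym2.eq_swap]⟩
  have h1 := (Finset.card_le_card hsub).trans Finset.card_image_le
  rw [Finset.card_erase_of_mem (Finset.mem_univ r), Finset.card_univ] at h1
  have h2 : Nat.card (parGraph r par).edgeSet = (parGraph r par).edgeFinset.card := by
    rw [Nat.card_eq_fintype_card, SimpleGraph.edgeFinset_card]
  have h3 : 0 < Fintype.card V := Fintype.card_pos_iff.mpr ⟨r⟩
  rw [h2, Nat.card_eq_fintype_card]
  omega

/-- The rooted tree given by a parent function. -/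
def build : FinRootedTree where
  V := V
  fintypeV := inferInstance
  graph := parGraph r par
  isTree := parGraph_isTree r par d hd0 hd
  root := r

omit [Fintype V] [DecidableEq V] in
theorem adj_dist_iff (v w : V) :
    (parGraph r par).Adj v w ∧ (parGraph r par).dist r w = (parGraph r par).dist r v + 1 ↔
      w ≠ r ∧ par w = v := by
  rw [parGraph_dist r par d hd0 hd, parGraph_dist r par d hd0 hd, parGraph,
    SimpleGraph.fromRel_adj]
  constructor
  · rintro ⟨⟨h0, ⟨h1, h2⟩ | ⟨h1, h2⟩⟩, h3⟩
    · have := hd v h1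
      rw [h2] at this
      omega
    · exact ⟨h1, h2⟩
  · rintro ⟨h1, h2⟩
    have := hd w h1
    rw [h2] at this
    refine ⟨⟨?_, Or.inr ⟨h1, h2⟩⟩, this⟩
    rintro rfl
    omega

theorem mem_children_build (v w : V) :
    @Membership.mem V (Finset V) _ (children (build r par d hd0 hd) v) w ↔ w ≠ r ∧ par w = v :=
  (mem_children (T := build r par d hd0 hd)).trans (adj_dist_iff r par d hd0 hd v w)

end Build

/-! ### Unfolding the recursions -/

open Classical in
theorem pAt_unfold (T : FinRootedTree) (v : T.V) :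
    pAt T v = if children T v = ∅ then X else X * (1 - ∏ w ∈ children T v, (1 - pAt T w)) := by
  rw [pAt]
  congr 3
  exact Finset.prod_attach (children T v) fun w => 1 - pAt T w

open Classical in
theorem AAt_unfold (T : FinRootedTree) (v : T.V) :
    AAt T v = if children T v = ∅ then yVar else yVar + xVar * ∏ w ∈ children T v, AAt T w := by
  rw [AAt]
  congr 3
  exact Finset.prod_attach (children T v) fun w => AAt T w

open Classical in
theorem MAt_unfold (T : FinRootedTree) (v : T.V) :
    MAt T v = if children T v = ∅ then 1 else aeval zVar (pAt T v).divX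
      + xVar * ∑ w ∈ children T v, MAt T w * ∏ w' ∈ (children T v).erase w, AAt T w' := by
  rw [MAt]
  congr 3
  exact Finset.sum_attach (children T v) fun w =>
    MAt T w * ∏ w' ∈ (children T v).erase w, AAt T w'

theorem pAt_of_children {ι : Type} {T : FinRootedTree} {v : T.V} {s : Finset ι} [DecidableEq ι]
    {f : ι ↪ T.V} (h : children T v = s.map f) :
    pAt T v = if s = ∅ then X else X * (1 - ∏ l ∈ s, (1 - pAt T (f l))) := by
  rw [pAt_unfold, h, Finset.prod_map]
  simp only [Finset.map_eq_empty]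

theorem AAt_of_children {ι : Type} {T : FinRootedTree} {v : T.V} {s : Finset ι} [DecidableEq ι]
    {f : ι ↪ T.V} (h : children T v = s.map f) :
    AAt T v = if s = ∅ then yVar else yVar + xVar * ∏ l ∈ s, AAt T (f l) := by
  rw [AAt_unfold, h, Finset.prod_map]
  simp only [Finset.map_eq_empty]

theorem MAt_of_children {ι : Type} {T : FinRootedTree} {v : T.V} {s : Finset ι} [DecidableEq ι]
    {f : ι ↪ T.V} (h : children T v = s.map f) :
    MAt T v = if s = ∅ then 1 else aeval zVar (pAt T v).divX
      + xVar * ∑ l ∈ s, MAt T (f l) * ∏ l' ∈ s.erase l, AAt T (f l') := by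
  classical
  rw [MAt_unfold, h, Finset.sum_map]
  simp only [Finset.map_eq_empty, ← Finset.map_erase, Finset.prod_map]

/-! ### A numerical invariant -/

/-- A numerical invariant of rooted trees: `N_T = 1 + ∑ N_{T_i}^2`. -/
noncomputable def NAt (T : FinRootedTree) (v : T.V) : ℕ :=
  1 + ∑ w ∈ (children T v).attach, (NAt T w.1) ^ 2
termination_by Fintype.card T.V - T.graph.dist T.root v
decreasing_by exact child_lt w.2

theorem NAt_unfold (T : FinRootedTree) (v : T.V) :
    NAt T v = 1 + ∑ w ∈ children T v, (NAt T w) ^ 2 := by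
  rw [NAt]
  congr 1
  exact Finset.sum_attach (children T v) fun w => (NAt T w) ^ 2

theorem NAt_of_children {ι : Type} {T : FinRootedTree} {v : T.V} {s : Finset ι}
    {f : ι ↪ T.V} (h : children T v = s.map f) :
    NAt T v = 1 + ∑ l ∈ s, (NAt T (f l)) ^ 2 := by
  rw [NAt_unfold, h, Finset.sum_map]

theorem dist_iso {V W : Type} {G : SimpleGraph V} {H : SimpleGraph W} (hG : G.Connected)
    (e : G ≃g H) (u v : V) : H.dist (e u) (e v) = G.dist u v := by
  have hH : H.Connected := e.connected_iff.mp hG
  apply le_antisymm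
  · obtain ⟨p, hp⟩ := hG.exists_walk_length_eq_dist u v
    have := SimpleGraph.dist_le (p.map e.toHom)
    rw [SimpleGraph.Walk.length_map, hp] at this
    exact this
  · obtain ⟨p, hp⟩ := hH.exists_walk_length_eq_dist (e u) (e v)
    have := SimpleGraph.dist_le ((p.map e.symm.toHom).copy (e.symm_apply_apply u)
      (e.symm_apply_apply v))
    rw [SimpleGraph.Walk.length_copy, SimpleGraph.Walk.length_map, hp] at this
    exact this

theorem children_iso {S T : FinRootedTree} (e : S.graph ≃g T.graph) (he : e S.root = T.root)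
    (v : S.V) : children T (e v) = (children S v).map e.toEquiv.toEmbedding := by
  ext w
  obtain ⟨w, rfl⟩ := e.surjective w
  rw [mem_children, ← he, dist_iso S.isTree.connected e, dist_iso S.isTree.connected e,
    SimpleGraph.Iso.map_adj_iff]
  constructor
  · intro h
    exact Finset.mem_map.mpr ⟨w, mem_children.mpr h, rfl⟩
  · intro h
    obtain ⟨w', h1, h2⟩ := Finset.mem_map.mp h
    have : w' = w := e.injective h2
    subst this
    exact mem_children.mp h1

theorem NAt_iso {S T : FinRootedTree} (e : S.graph ≃g T.graph) (he : e S.root = T.root) (n : ℕ) :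
    ∀ v : S.V, Fintype.card S.V - S.graph.dist S.root v = n → NAt T (e v) = NAt S v := by
  induction n using Nat.strong_induction_on with
  | _ n ih =>
    intro v hv
    rw [NAt_unfold, NAt_unfold, children_iso e he, Finset.sum_map]
    congr 1
    apply Finset.sum_congr rfl
    intro w hw
    have := ih _ (by rw [← hv]; exact child_lt hw) w rfl
    rw [← this]
    rfl

theorem NAt_eq_of_isomorphic {S T : FinRootedTree} (h : Isomorphic S T) :
    NAt S S.root = NAt T T.root := by
  obtain ⟨e, he⟩ := h
  rw [← he]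
  exact (NAt_iso e he _ S.root rfl).symm

/-! ### The two trees -/

/-- The vertex set of the two trees with 39 vertices: `none` is the root, `some (i, none)` are its
two children, and `some (i, some (j, k))`, `k : Fin 9`, are the vertices of the `j`-th branch
hanging from `some (i, none)`. -/
abbrev Vt : Type := Option (Fin 2 × Option (Fin 2 × Fin 9))

/-- Parents in the two 9-vertex trees `U` (`true`) and `U'` (`false`) with root `0`. -/
def q : Bool → Fin 9 → Fin 9
  | true => ![0, 0, 1, 2, 3, 3, 1, 0, 7]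
  | false => ![0, 0, 1, 2, 3, 2, 0, 6, 6]

/-- Depths in the two 9-vertex trees. -/
def dq : Bool → Fin 9 → ℕ
  | true => ![0, 1, 2, 3, 4, 4, 2, 1, 2]
  | false => ![0, 1, 2, 3, 4, 3, 1, 2, 2]

/-- The parent function. -/
def par (σ : Fin 2 → Fin 2 → Bool) : Vt → Vt
  | none => none
  | some (_, none) => none
  | some (i, some (j, k)) => if k = 0 then some (i, none) else some (i, some (j, q (σ i j) k))

/-- The depth function. -/
def dep (σ : Fin 2 → Fin 2 → Bool) : Vt → ℕ
  | none => 0
  | some (_, none) => 1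
  | some (i, some (j, k)) => 2 + dq (σ i j) k

theorem dq_eq (b : Bool) (k : Fin 9) (hk : k ≠ 0) : dq b k = dq b (q b k) + 1 := by
  revert b k
  decide

theorem dep_eq (σ : Fin 2 → Fin 2 → Bool) (v : Vt) (hv : v ≠ none) :
    dep σ v = dep σ (par σ v) + 1 := by
  rcases v with _ | ⟨i, _ | ⟨j, k⟩⟩
  · exact absurd rfl hv
  · rfl
  · by_cases hk : k = 0
    · subst hk
      simp only [dep, par, if_true]
      cases σ i j <;> rfl
    · simp only [dep, par, if_neg hk]
      rw [dq_eq _ k hk]
      rfl

/-- The tree whose `j`-th branch hanging from the `i`-th child of the root is `U` or `U'` according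
to `σ i j`. -/
def tree (σ : Fin 2 → Fin 2 → Bool) : FinRootedTree :=
  build none (par σ) (dep σ) rfl (dep_eq σ)

theorem mem_children_tree (σ : Fin 2 → Fin 2 → Bool) (v w : Vt) :
    @Membership.mem Vt (Finset Vt) _ (children (tree σ) v) w ↔ w ≠ none ∧ par σ w = v :=
  mem_children_build none (par σ) (dep σ) rfl (dep_eq σ) v w

/-- Children in the 9-vertex trees. -/
def ch (b : Bool) (k : Fin 9) : Finset (Fin 9) :=
  Finset.univ.filter fun l => l ≠ 0 ∧ q b l = k

/-- The embedding of a 9-vertex branch. -/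
def emb (i j : Fin 2) : Fin 9 ↪ Vt where
  toFun k := some (i, some (j, k))
  inj' := by
    intro a b h
    simpa using h

/-- The embedding of the two branches. -/
def embRoot (i : Fin 2) : Fin 2 ↪ Vt where
  toFun j := some (i, some (j, 0))
  inj' := by
    intro a b h
    simpa using h

/-- The embedding of the two children of the root. -/
def embTop : Fin 2 ↪ Vt where
  toFun i := some (i, none)
  inj' := by
    intro a b h
    simpa using h

theorem emb_apply (i j : Fin 2) (k : Fin 9) : emb i j k = some (i, some (j, k)) := rfl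

theorem embRoot_apply (i j : Fin 2) : embRoot i j = some (i, some (j, 0)) := rfl

theorem embTop_apply (i : Fin 2) : embTop i = some (i, none) := rfl

theorem low_aux (σ : Fin 2 → Fin 2 → Bool) (i j : Fin 2) (k : Fin 9) (w : Vt) :
    w ≠ none ∧ par σ w = emb i j k ↔ w ∈ (ch (σ i j) k).map (emb i j) := by
  rw [Finset.mem_map]
  simp only [emb_apply]
  constructor
  · rintro ⟨h1, h2⟩
    rcases w with _ | ⟨i', _ | ⟨j', l⟩⟩
    · exact absurd rfl h1
    · simp [par] at h2
    · by_cases hl : l = 0
      · simp [par, hl] at h2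
      · simp only [par, if_neg hl, Option.some.injEq, Prod.mk.injEq] at h2
        obtain ⟨rfl, rfl, h3⟩ := h2
        exact ⟨l, by simp [ch, hl, h3], rfl⟩
  · rintro ⟨l, h1, rfl⟩
    simp only [ch, Finset.mem_filter, Finset.mem_univ, true_and] at h1
    refine ⟨by simp, ?_⟩
    simp [par, h1.1, h1.2]

theorem mid_aux (σ : Fin 2 → Fin 2 → Bool) (i : Fin 2) (w : Vt) :
    w ≠ none ∧ par σ w = embTop i ↔ w ∈ (Finset.univ : Finset (Fin 2)).map (embRoot i) := by
  rw [Finset.mem_map]
  simp only [embTop_apply, embRoot_apply]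
  constructor
  · rintro ⟨h1, h2⟩
    rcases w with _ | ⟨i', _ | ⟨j', l⟩⟩
    · exact absurd rfl h1
    · simp [par] at h2
    · by_cases hl : l = 0
      · simp only [par, if_pos hl, Option.some.injEq, Prod.mk.injEq, and_true] at h2
        subst h2 hl
        exact ⟨j', Finset.mem_univ _, rfl⟩
      · simp [par, hl] at h2
  · rintro ⟨l, h1, rfl⟩
    refine ⟨by simp, ?_⟩
    simp [par]

theorem top_aux (σ : Fin 2 → Fin 2 → Bool) (w : Vt) :
    w ≠ none ∧ par σ w = none ↔ w ∈ (Finset.univ : Finset (Fin 2)).map embTop := by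
  rw [Finset.mem_map]
  simp only [embTop_apply]
  constructor
  · rintro ⟨h1, h2⟩
    rcases w with _ | ⟨i', _ | ⟨j', l⟩⟩
    · exact absurd rfl h1
    · exact ⟨i', Finset.mem_univ _, rfl⟩
    · by_cases hl : l = 0
      · simp [par, hl] at h2
      · simp [par, hl] at h2
  · rintro ⟨l, h1, rfl⟩
    exact ⟨by simp, rfl⟩

theorem children_low (σ : Fin 2 → Fin 2 → Bool) (i j : Fin 2) (k : Fin 9) :
    children (tree σ) (emb i j k) = (ch (σ i j) k).map (emb i j) :=
  Finset.ext fun w => (mem_children_tree σ _ w).trans (low_aux σ i j k w)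

theorem children_mid (σ : Fin 2 → Fin 2 → Bool) (i : Fin 2) :
    children (tree σ) (embTop i) = (Finset.univ : Finset (Fin 2)).map (embRoot i) :=
  Finset.ext fun w => (mem_children_tree σ _ w).trans (mid_aux σ i w)

theorem children_top (σ : Fin 2 → Fin 2 → Bool) :
    children (tree σ) (none : Vt) = (Finset.univ : Finset (Fin 2)).map embTop :=
  Finset.ext fun w => (mem_children_tree σ _ w).trans (top_aux σ w)

/-! ### The recursions in the two trees -/

section Rec

variable (σ : Fin 2 → Fin 2 → Bool)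

/-- `p` at a low vertex. -/
noncomputable def pL (i j : Fin 2) (k : Fin 9) : ℤ[X] := pAt (tree σ) (emb i j k)

/-- `A` at a low vertex. -/
noncomputable def AL (i j : Fin 2) (k : Fin 9) : MvPolynomial (Fin 3) ℤ :=
  AAt (tree σ) (emb i j k)

/-- `M` at a low vertex. -/
noncomputable def ML (i j : Fin 2) (k : Fin 9) : MvPolynomial (Fin 3) ℤ :=
  MAt (tree σ) (emb i j k)

/-- `N` at a low vertex. -/
noncomputable def NL (i j : Fin 2) (k : Fin 9) : ℕ := NAt (tree σ) (emb i j k)

theorem pL_rec (i j : Fin 2) (k : Fin 9) :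
    pL σ i j k = if ch (σ i j) k = ∅ then X
      else X * (1 - ∏ l ∈ ch (σ i j) k, (1 - pL σ i j l)) :=
  pAt_of_children (T := tree σ) (children_low σ i j k)

theorem AL_rec (i j : Fin 2) (k : Fin 9) :
    AL σ i j k = if ch (σ i j) k = ∅ then yVar
      else yVar + xVar * ∏ l ∈ ch (σ i j) k, AL σ i j l :=
  AAt_of_children (T := tree σ) (children_low σ i j k)

theorem NL_rec (i j : Fin 2) (k : Fin 9) :
    NL σ i j k = 1 + ∑ l ∈ ch (σ i j) k, (NL σ i j l) ^ 2 :=
  NAt_of_children (T := tree σ) (children_low σ i j k)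

theorem ML_rec (i j : Fin 2) (k : Fin 9) :
    ML σ i j k = if ch (σ i j) k = ∅ then 1 else aeval zVar (pL σ i j k).divX
      + xVar * ∑ l ∈ ch (σ i j) k, ML σ i j l * ∏ l' ∈ (ch (σ i j) k).erase l, AL σ i j l' :=
  MAt_of_children (T := tree σ) (children_low σ i j k)

end Rec

/-! ### Evaluation in the 9-vertex trees -/

theorem ch_true :
    ch true 0 = {1, 7} ∧ ch true 1 = {2, 6} ∧ ch true 2 = {3} ∧ ch true 3 = {4, 5} ∧
    ch true 4 = ∅ ∧ ch true 5 = ∅ ∧ ch true 6 = ∅ ∧ ch true 7 = {8} ∧ ch true 8 = ∅ := by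
  decide

theorem ch_false :
    ch false 0 = {1, 6} ∧ ch false 1 = {2} ∧ ch false 2 = {3, 5} ∧ ch false 3 = {4} ∧
    ch false 4 = ∅ ∧ ch false 5 = ∅ ∧ ch false 6 = {7, 8} ∧ ch false 7 = ∅ ∧ ch false 8 = ∅ := by
  decide

section Eval

variable (σ : Fin 2 → Fin 2 → Bool) (i j : Fin 2)

/-- `A` of both 9-vertex trees. -/
noncomputable def A9 : MvPolynomial (Fin 3) ℤ :=
  yVar + xVar * yVar ^ 2 * (1 + xVar) * (1 + xVar ^ 2 * yVar) * (1 + xVar * yVar)

theorem AL_zero : AL σ i j 0 = A9 := by
  cases h : σ i j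
  · obtain ⟨h0, h1, h2, h3, h4, h5, h6, h7, h8⟩ := ch_false
    have e8 : AL σ i j 8 = yVar := by rw [AL_rec, h, h8, if_pos rfl]
    have e7 : AL σ i j 7 = yVar := by rw [AL_rec, h, h7, if_pos rfl]
    have e6 : AL σ i j 6 = yVar + xVar * yVar ^ 2 := by
      rw [AL_rec, h, h6, if_neg (by decide), Finset.prod_pair (by decide), e7, e8]; ring
    have e5 : AL σ i j 5 = yVar := by rw [AL_rec, h, h5, if_pos rfl]
    have e4 : AL σ i j 4 = yVar := by rw [AL_rec, h, h4, if_pos rfl]
    have e3 : AL σ i j 3 = yVar + xVar * yVar := by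
      rw [AL_rec, h, h3, if_neg (by decide), Finset.prod_singleton, e4]
    have e2 : AL σ i j 2 = yVar + xVar * ((yVar + xVar * yVar) * yVar) := by
      rw [AL_rec, h, h2, if_neg (by decide), Finset.prod_pair (by decide), e3, e5]
    have e1 : AL σ i j 1 = yVar + xVar * (yVar + xVar * ((yVar + xVar * yVar) * yVar)) := by
      rw [AL_rec, h, h1, if_neg (by decide), Finset.prod_singleton, e2]
    rw [AL_rec, h, h0, if_neg (by decide), Finset.prod_pair (by decide), e1, e6, A9]
    ring
  · obtain ⟨h0, h1, h2, h3, h4, h5, h6, h7, h8⟩ := ch_true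
    have e8 : AL σ i j 8 = yVar := by rw [AL_rec, h, h8, if_pos rfl]
    have e7 : AL σ i j 7 = yVar + xVar * yVar := by
      rw [AL_rec, h, h7, if_neg (by decide), Finset.prod_singleton, e8]
    have e6 : AL σ i j 6 = yVar := by rw [AL_rec, h, h6, if_pos rfl]
    have e5 : AL σ i j 5 = yVar := by rw [AL_rec, h, h5, if_pos rfl]
    have e4 : AL σ i j 4 = yVar := by rw [AL_rec, h, h4, if_pos rfl]
    have e3 : AL σ i j 3 = yVar + xVar * (yVar * yVar) := by
      rw [AL_rec, h, h3, if_neg (by decide), Finset.prod_pair (by decide), e4, e5]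
    have e2 : AL σ i j 2 = yVar + xVar * (yVar + xVar * (yVar * yVar)) := by
      rw [AL_rec, h, h2, if_neg (by decide), Finset.prod_singleton, e3]
    have e1 : AL σ i j 1 = yVar + xVar * ((yVar + xVar * (yVar + xVar * (yVar * yVar))) * yVar) := by
      rw [AL_rec, h, h1, if_neg (by decide), Finset.prod_pair (by decide), e2, e6]
    rw [AL_rec, h, h0, if_neg (by decide), Finset.prod_pair (by decide), e1, e7, A9]
    ring

/-- `p` of both 9-vertex trees, up to the form in which it is written. -/
noncomputable def p9 : ℤ[X] := pL (fun _ _ => true) 0 0 0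

theorem pL_true (h : σ i j = true) : pL σ i j 0 =
    X * (1 - (1 - X * (1 - (1 - X * (1 - (1 - X * (1 - (1 - X) * (1 - X))))) * (1 - X))) *
      (1 - X * (1 - (1 - X)))) := by
  obtain ⟨h0, h1, h2, h3, h4, h5, h6, h7, h8⟩ := ch_true
  have e8 : pL σ i j 8 = X := by rw [pL_rec, h, h8, if_pos rfl]
  have e7 : pL σ i j 7 = X * (1 - (1 - X)) := by
    rw [pL_rec, h, h7, if_neg (by decide), Finset.prod_singleton, e8]
  have e6 : pL σ i j 6 = X := by rw [pL_rec, h, h6, if_pos rfl]
  have e5 : pL σ i j 5 = X := by rw [pL_rec, h, h5, if_pos rfl]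
  have e4 : pL σ i j 4 = X := by rw [pL_rec, h, h4, if_pos rfl]
  have e3 : pL σ i j 3 = X * (1 - (1 - X) * (1 - X)) := by
    rw [pL_rec, h, h3, if_neg (by decide), Finset.prod_pair (by decide), e4, e5]
  have e2 : pL σ i j 2 = X * (1 - (1 - X * (1 - (1 - X) * (1 - X)))) := by
    rw [pL_rec, h, h2, if_neg (by decide), Finset.prod_singleton, e3]
  have e1 : pL σ i j 1 =
      X * (1 - (1 - X * (1 - (1 - X * (1 - (1 - X) * (1 - X))))) * (1 - X)) := by
    rw [pL_rec, h, h1, if_neg (by decide), Finset.prod_pair (by decide), e2, e6]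
  rw [pL_rec, h, h0, if_neg (by decide), Finset.prod_pair (by decide), e1, e7]

theorem pL_false (h : σ i j = false) : pL σ i j 0 =
    X * (1 - (1 - X * (1 - (1 - X * (1 - (1 - X * (1 - (1 - X))) * (1 - X))))) *
      (1 - X * (1 - (1 - X) * (1 - X)))) := by
  obtain ⟨h0, h1, h2, h3, h4, h5, h6, h7, h8⟩ := ch_false
  have e8 : pL σ i j 8 = X := by rw [pL_rec, h, h8, if_pos rfl]
  have e7 : pL σ i j 7 = X := by rw [pL_rec, h, h7, if_pos rfl]
  have e6 : pL σ i j 6 = X * (1 - (1 - X) * (1 - X)) := by
    rw [pL_rec, h, h6, if_neg (by decide), Finset.prod_pair (by decide), e7, e8]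
  have e5 : pL σ i j 5 = X := by rw [pL_rec, h, h5, if_pos rfl]
  have e4 : pL σ i j 4 = X := by rw [pL_rec, h, h4, if_pos rfl]
  have e3 : pL σ i j 3 = X * (1 - (1 - X)) := by
    rw [pL_rec, h, h3, if_neg (by decide), Finset.prod_singleton, e4]
  have e2 : pL σ i j 2 = X * (1 - (1 - X * (1 - (1 - X))) * (1 - X)) := by
    rw [pL_rec, h, h2, if_neg (by decide), Finset.prod_pair (by decide), e3, e5]
  have e1 : pL σ i j 1 =
      X * (1 - (1 - X * (1 - (1 - X * (1 - (1 - X))) * (1 - X)))) := by
    rw [pL_rec, h, h1, if_neg (by decide), Finset.prod_singleton, e2]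
  rw [pL_rec, h, h0, if_neg (by decide), Finset.prod_pair (by decide), e1, e6]

theorem pL_zero : pL σ i j 0 = p9 := by
  cases h : σ i j
  · rw [p9, pL_true (fun _ _ => true) 0 0 rfl, pL_false σ i j h]
    ring
  · rw [p9, pL_true (fun _ _ => true) 0 0 rfl, pL_true σ i j h]

theorem NL_true (h : σ i j = true) : NL σ i j 0 = 10409 := by
  obtain ⟨h0, h1, h2, h3, h4, h5, h6, h7, h8⟩ := ch_true
  have e8 : NL σ i j 8 = 1 := by rw [NL_rec, h, h8]; simp
  have e7 : NL σ i j 7 = 2 := by rw [NL_rec, h, h7]; simp [e8]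
  have e6 : NL σ i j 6 = 1 := by rw [NL_rec, h, h6]; simp
  have e5 : NL σ i j 5 = 1 := by rw [NL_rec, h, h5]; simp
  have e4 : NL σ i j 4 = 1 := by rw [NL_rec, h, h4]; simp
  have e3 : NL σ i j 3 = 3 := by
    rw [NL_rec, h, h3, Finset.sum_pair (by decide), e4, e5]; norm_num
  have e2 : NL σ i j 2 = 10 := by
    rw [NL_rec, h, h2, Finset.sum_singleton, e3]; norm_num
  have e1 : NL σ i j 1 = 102 := by
    rw [NL_rec, h, h1, Finset.sum_pair (by decide), e2, e6]; norm_num
  rw [NL_rec, h, h0, Finset.sum_pair (by decide), e1, e7]; norm_num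

theorem NL_false (h : σ i j = false) : NL σ i j 0 = 1379 := by
  obtain ⟨h0, h1, h2, h3, h4, h5, h6, h7, h8⟩ := ch_false
  have e8 : NL σ i j 8 = 1 := by rw [NL_rec, h, h8]; simp
  have e7 : NL σ i j 7 = 1 := by rw [NL_rec, h, h7]; simp
  have e6 : NL σ i j 6 = 3 := by
    rw [NL_rec, h, h6, Finset.sum_pair (by decide), e7, e8]; norm_num
  have e5 : NL σ i j 5 = 1 := by rw [NL_rec, h, h5]; simp
  have e4 : NL σ i j 4 = 1 := by rw [NL_rec, h, h4]; simp
  have e3 : NL σ i j 3 = 2 := by
    rw [NL_rec, h, h3, Finset.sum_singleton, e4]; norm_num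
  have e2 : NL σ i j 2 = 6 := by
    rw [NL_rec, h, h2, Finset.sum_pair (by decide), e3, e5]; norm_num
  have e1 : NL σ i j 1 = 37 := by
    rw [NL_rec, h, h1, Finset.sum_singleton, e2]; norm_num
  rw [NL_rec, h, h0, Finset.sum_pair (by decide), e1, e6]; norm_num

end Eval

/-- The value of `M` at a low vertex depends only on the 9-vertex tree it belongs to. -/
theorem ML_congr (σ τ : Fin 2 → Fin 2 → Bool) (i j i' j' : Fin 2) (h : σ i j = τ i' j') (n : ℕ) :
    ∀ k : Fin 9, 9 - (k : ℕ) = n → pL σ i j k = pL τ i' j' k ∧ AL σ i j k = AL τ i' j' k ∧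
      ML σ i j k = ML τ i' j' k := by
  induction n using Nat.strong_induction_on with
  | _ n ih =>
    intro k hk
    have hlt : ∀ b, ∀ l ∈ ch b k, (k : ℕ) < l := by
      clear hk
      revert k
      decide
    have ih' : ∀ l ∈ ch (σ i j) k, pL σ i j l = pL τ i' j' l ∧ AL σ i j l = AL τ i' j' l ∧
        ML σ i j l = ML τ i' j' l := by
      intro l hl
      have := hlt _ l hl
      exact ih (9 - (l : ℕ)) (by have := l.isLt; omega) l rfl
    have hp : pL σ i j k = pL τ i' j' k := by
      rw [pL_rec, pL_rec, ← h]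
      congr 3
      exact Finset.prod_congr rfl fun l hl => by rw [(ih' l hl).1]
    refine ⟨hp, ?_, ?_⟩
    · rw [AL_rec, AL_rec, ← h]
      congr 3
      exact Finset.prod_congr rfl fun l hl => by rw [(ih' l hl).2.1]
    · rw [ML_rec, ML_rec, ← h, hp]
      congr 3
      refine Finset.sum_congr rfl fun l hl => ?_
      rw [(ih' l hl).2.2]
      congr 1
      exact Finset.prod_congr rfl fun l' hl' => by
        rw [(ih' l' (Finset.mem_of_mem_erase hl')).2.1]

/-- `M` of the two 9-vertex trees. -/
noncomputable def M9 (b : Bool) : MvPolynomial (Fin 3) ℤ := ML (fun _ _ => b) 0 0 0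

theorem ML_zero (σ : Fin 2 → Fin 2 → Bool) (i j : Fin 2) : ML σ i j 0 = M9 (σ i j) :=
  (ML_congr σ (fun _ _ => σ i j) i j 0 0 rfl 9 0 rfl).2.2

/-! ### The values at the upper vertices -/

section Upper

variable (σ : Fin 2 → Fin 2 → Bool) (i : Fin 2)

theorem pMid : pAt (tree σ) (embTop i) = X * (1 - (1 - p9) * (1 - p9)) := by
  have := pAt_of_children (T := tree σ) (children_mid σ i)
  rw [if_neg (by decide), Fin.prod_univ_two] at this
  rw [← pL_zero σ i 0]
  nth_rewrite 2 [pL_zero σ i 0]
  rw [← pL_zero σ i 1]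
  exact this

theorem AMid : AAt (tree σ) (embTop i) = yVar + xVar * (A9 * A9) := by
  have := AAt_of_children (T := tree σ) (children_mid σ i)
  rw [if_neg (by decide), Fin.prod_univ_two] at this
  rw [← AL_zero σ i 0]
  nth_rewrite 2 [AL_zero σ i 0]
  rw [← AL_zero σ i 1]
  exact this

theorem NMid : NAt (tree σ) (embTop i) = 1 + (NL σ i 0 0 ^ 2 + NL σ i 1 0 ^ 2) := by
  have := NAt_of_children (T := tree σ) (children_mid σ i)
  rw [Fin.sum_univ_two] at this
  exact this

theorem MMid : MAt (tree σ) (embTop i) =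
    aeval zVar (X * (1 - (1 - p9) * (1 - p9))).divX
      + xVar * (M9 (σ i 0) * A9 + M9 (σ i 1) * A9) := by
  have := MAt_of_children (T := tree σ) (children_mid σ i)
  rw [if_neg (by decide), Fin.sum_univ_two,
    show (Finset.univ : Finset (Fin 2)).erase 0 = {1} by decide,
    show (Finset.univ : Finset (Fin 2)).erase 1 = {0} by decide,
    Finset.prod_singleton, Finset.prod_singleton] at this
  rw [← pMid σ i, ← ML_zero, ← ML_zero]
  nth_rewrite 1 [← AL_zero σ i 1]
  rw [← AL_zero σ i 0]
  exact this

theorem MTop : M (tree σ) = aeval zVar (pAt (tree σ) (none : Vt)).divX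
    + xVar * (MAt (tree σ) (embTop 0) * AAt (tree σ) (embTop 1)
      + MAt (tree σ) (embTop 1) * AAt (tree σ) (embTop 0)) := by
  have := MAt_of_children (T := tree σ) (children_top σ)
  rw [if_neg (by decide), Fin.sum_univ_two,
    show (Finset.univ : Finset (Fin 2)).erase 0 = {1} by decide,
    show (Finset.univ : Finset (Fin 2)).erase 1 = {0} by decide,
    Finset.prod_singleton, Finset.prod_singleton] at this
  exact this

theorem pTop : pAt (tree σ) (none : Vt) =
    X * (1 - (1 - X * (1 - (1 - p9) * (1 - p9))) * (1 - X * (1 - (1 - p9) * (1 - p9)))) := by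
  have := pAt_of_children (T := tree σ) (children_top σ)
  rw [if_neg (by decide), Fin.prod_univ_two] at this
  rw [← pMid σ 0]
  nth_rewrite 2 [pMid σ 0]
  rw [← pMid σ 1]
  exact this

theorem NTop : NAt (tree σ) (none : Vt) =
    1 + (NAt (tree σ) (embTop 0) ^ 2 + NAt (tree σ) (embTop 1) ^ 2) := by
  have := NAt_of_children (T := tree σ) (children_top σ)
  rw [Fin.sum_univ_two] at this
  exact this

end Upper

/-- The first tree: `∧(∧(U', U'), ∧(U, U))`. -/
def tree₁ : FinRootedTree := tree fun i _ => i == 1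

/-- The second tree: `∧(∧(U', U), ∧(U', U))`. -/
def tree₂ : FinRootedTree := tree fun _ j => j == 1

theorem not_isomorphic : ¬ Isomorphic tree₁ tree₂ := by
  intro h
  have h1 : NAt (tree fun i _ => i == 1) (none : Vt) = NAt (tree fun _ j => j == 1) (none : Vt) :=
    NAt_eq_of_isomorphic h
  rw [NTop, NTop, NMid, NMid, NMid, NMid,
    NL_false (fun i _ => i == 1) 0 0 rfl, NL_false (fun i _ => i == 1) 0 1 rfl,
    NL_true (fun i _ => i == 1) 1 0 rfl, NL_true (fun i _ => i == 1) 1 1 rfl,
    NL_false (fun _ j => j == 1) 0 0 rfl, NL_true (fun _ j => j == 1) 0 1 rfl,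
    NL_false (fun _ j => j == 1) 1 0 rfl, NL_true (fun _ j => j == 1) 1 1 rfl] at h1
  norm_num at h1

theorem M_eq : M tree₁ = M tree₂ := by
  rw [tree₁, tree₂, MTop, MTop, pTop, pTop, AMid, AMid, AMid, AMid, MMid, MMid, MMid, MMid]
  simp only [show ((0 : Fin 2) == 1) = false from rfl, show ((1 : Fin 2) == 1) = true from rfl]
  ring

theorem separation_not_complete : ∃ T T' : FinRootedTree, ¬ Isomorphic T T' ∧ G T = G T' :=
  ⟨tree₁, tree₂, not_isomorphic, by rw [G, G, M_eq]⟩

end Pool.Agent.Helper87.Sep
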